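import Pool.Graph.R_pool_sql_team_seeded_b3bd081e.H95R3.NS.Main
import Pool.Graph.R_pool_sql_team_seeded_b3bd081e.H95R3.NS.Bridge

/-!
# Finitely supported permutations of a large set with a free orbit of `G`

`G` acts on `G ⊕ Set (G ⊕ K)` through the left translations of the first summand.
-/

set_option autoImplicit false

namespace Pool.Agent.H10.EC

open Pool.Agent.H95R3.NS

variable {G K : Type} [Group G]

/-- The set on which `G` acts: one free orbit and many fixed points. -/
abbrev I (G K : Type) : Type := G ⊕ Set (G ⊕ K)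

/-- the action of `G` on `G ⊕ Set (G ⊕ K)` (left translation on the first summand) -/
def act (G K : Type) [Group G] : G →* Equiv.Perm (I G K) where
  toFun h := Equiv.sumCongr (Equiv.mulLeft h) (Equiv.refl (Set (G ⊕ K)))
  map_one' := by
    ext x
    rcases x with x | x <;> simp
  map_mul' := by
    intro a b
    ext x
    rcases x with x | x <;> simp [mul_assoc]

/-- the induced action on the finitary permutation group -/
def th (G K : Type) [Group G] : G →* MulAut (FP (I G K)) := MulAut.conjNormal.comp (act G K)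

lemma th_val (h : G) (x : FP (I G K)) :
    ((th G K h x : FP (I G K)) : Equiv.Perm (I G K)) = act G K h * x * (act G K h)⁻¹ := by
  simp [th]

/-- twisted conjugacy classes are infinite -/
lemma twisted_infinite [Infinite G] (m n : G) (hmn : m ≠ n)
    (h : FP (I G K)) : {x : FP (I G K) | ∃ g, x = th G K m g * h * (th G K n g)⁻¹}.Infinite := by
  classical
  apply infinite_of_moved
  have hfin : {j | (h : Equiv.Perm (I G K)) j ≠ j}.Finite := h.2
  obtain ⟨r, hr⟩ : ∃ r : Set (G ⊕ K), (h : Equiv.Perm (I G K)) (Sum.inr r) = Sum.inr r := by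
    by_contra hcon
    push Not at hcon
    have hsub : Set.range (Sum.inr : Set (G ⊕ K) → I G K) ⊆
        {j | (h : Equiv.Perm (I G K)) j ≠ j} := by
      rintro _ ⟨r, rfl⟩
      exact hcon r
    exact (Set.infinite_range_of_injective Sum.inr_injective) (hfin.subset hsub)
  refine (Set.infinite_range_of_injective
    (f := fun k : G => (Sum.inl (n * k) : I G K)) ?_).mono ?_
  · intro a b hab
    simpa using hab
  · rintro _ ⟨k, rfl⟩
    refine ⟨th G K m ⟨Equiv.swap (Sum.inl k) (Sum.inr r), swap_mem _ _⟩ * h *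
      (th G K n ⟨Equiv.swap (Sum.inl k) (Sum.inr r), swap_mem _ _⟩)⁻¹, ⟨_, rfl⟩, ?_⟩
    simp only [Subgroup.coe_mul, Subgroup.coe_inv, th_val, mul_inv_rev, inv_inv,
      Equiv.Perm.mul_apply, Equiv.swap_inv]
    have e1 : ∀ a : G, (act G K a)⁻¹ (Sum.inl (a * k)) = Sum.inl k := by
      intro a
      rw [Equiv.Perm.inv_eq_iff_eq]
      simp [act]
    have e2 : ∀ a : G, act G K a (Sum.inr r) = Sum.inr r := by
      intro a; simp [act]
    have e3 : ∀ a : G, (act G K a)⁻¹ (Sum.inr r) = Sum.inr r := by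
      intro a
      rw [Equiv.Perm.inv_eq_iff_eq, e2]
    rw [e1, Equiv.swap_apply_left, e2, hr, e3, Equiv.swap_apply_right]
    simp only [act, MonoidHom.coe_mk, OneHom.coe_mk, Equiv.sumCongr_apply, Sum.map_inl,
      Equiv.coe_mulLeft]
    intro hcon
    have := Sum.inl_injective hcon
    exact hmn (mul_right_cancel this)

/-- many points which are fixed by a small set of permutations -/
lemma exists_emb [Infinite G] (C : Set (FP (I G K)))
    (hC : Cardinal.mk C ≤ Cardinal.mk (G ⊕ K)) :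
    ∃ j : K ↪ Set (G ⊕ K), ∀ k, ∀ x ∈ C,
      (x : Equiv.Perm (I G K)) (Sum.inr (j k)) = Sum.inr (j k) := by
  classical
  have hG : Cardinal.aleph0 ≤ Cardinal.mk (G ⊕ K) := Cardinal.aleph0_le_mk _
  have hle : Cardinal.mk (⋃ x ∈ C, {r : Set (G ⊕ K) |
      (x : Equiv.Perm (I G K)) (Sum.inr r) ≠ Sum.inr r} : Set (Set (G ⊕ K))) ≤
        Cardinal.mk (G ⊕ K) := by
    refine (Cardinal.mk_biUnion_le _ _).trans ?_
    refine (mul_le_mul' hC (ciSup_le' (fun x => ?_))).trans (Cardinal.mul_aleph0_eq hG).le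
    have hx : {j | ((x : FP (I G K)) : Equiv.Perm (I G K)) j ≠ j}.Finite := x.1.2
    have hfin := hx.preimage (f := (Sum.inr : Set (G ⊕ K) → I G K)) Sum.inr_injective.injOn
    exact (Cardinal.le_aleph0_iff_set_countable.2 hfin.countable)
  have h2 : Cardinal.mk (G ⊕ K) < Cardinal.mk ((⋃ x ∈ C, {r : Set (G ⊕ K) |
      (x : Equiv.Perm (I G K)) (Sum.inr r) ≠ Sum.inr r})ᶜ : Set (Set (G ⊕ K))) := by
    by_contra hcon
    push Not at hcon
    have h1 := Cardinal.mk_sum_compl (⋃ x ∈ C, {r : Set (G ⊕ K) |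
      (x : Equiv.Perm (I G K)) (Sum.inr r) ≠ Sum.inr r})
    have h3 : Cardinal.mk (Set (G ⊕ K)) ≤ Cardinal.mk (G ⊕ K) := by
      rw [← h1]
      exact (add_le_add hle hcon).trans (Cardinal.add_eq_self hG).le
    rw [Cardinal.mk_set] at h3
    exact absurd h3 (not_le.2 (Cardinal.cantor _))
  have h4 : Cardinal.mk K ≤ Cardinal.mk ((⋃ x ∈ C, {r : Set (G ⊕ K) |
      (x : Equiv.Perm (I G K)) (Sum.inr r) ≠ Sum.inr r})ᶜ : Set (Set (G ⊕ K))) :=
    (Cardinal.mk_le_of_injective (Sum.inr_injective : Function.Injective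
      (Sum.inr : K → G ⊕ K))).trans h2.le
  obtain ⟨e⟩ := h4
  refine ⟨e.trans (Function.Embedding.subtype _), fun k x hx => ?_⟩
  by_contra hcon
  exact (e k).2 (Set.mem_biUnion hx hcon)

/-- the copy of the finitary permutations of `K` moving the points `j k` -/
noncomputable def cp (j : K ↪ Set (G ⊕ K)) : FP K →* FP (I G K) where
  toFun σ := ⟨(σ : Equiv.Perm K).viaEmbedding (j.trans ⟨Sum.inr, Sum.inr_injective⟩), by
    rw [mem_FP]
    refine ((show {i | (σ : Equiv.Perm K) i ≠ i}.Finite from σ.2).image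
      (j.trans ⟨Sum.inr, Sum.inr_injective⟩ : K ↪ I G K)).subset ?_
    intro i hi
    by_cases h : i ∈ Set.range (j.trans ⟨Sum.inr, Sum.inr_injective⟩ : K ↪ I G K)
    · obtain ⟨k, rfl⟩ := h
      refine ⟨k, fun hk => hi ?_, rfl⟩
      rw [Equiv.Perm.viaEmbedding_apply, hk]
    · exact absurd (Equiv.Perm.viaEmbedding_apply_of_notMem _ _ _ h) hi⟩
  map_one' := by
    apply Subtype.ext
    exact map_one (Equiv.Perm.viaEmbeddingHom (j.trans ⟨Sum.inr, Sum.inr_injective⟩))
  map_mul' σ τ := by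
    apply Subtype.ext
    exact map_mul (Equiv.Perm.viaEmbeddingHom (j.trans ⟨Sum.inr, Sum.inr_injective⟩)) _ _

lemma cp_inj (j : K ↪ Set (G ⊕ K)) : Function.Injective (cp (G := G) j) := by
  intro σ τ h
  apply Subtype.ext
  exact Equiv.Perm.viaEmbeddingHom_injective (j.trans ⟨Sum.inr, Sum.inr_injective⟩)
    (congrArg Subtype.val h)

lemma cp_apply (j : K ↪ Set (G ⊕ K)) (σ : FP K) (k : K) :
    ((cp (G := G) j σ : FP (I G K)) : Equiv.Perm (I G K)) (Sum.inr (j k)) =
      Sum.inr (j ((σ : Equiv.Perm K) k)) :=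
  Equiv.Perm.viaEmbedding_apply _ (j.trans ⟨Sum.inr, Sum.inr_injective⟩) k

lemma cp_apply_ne (j : K ↪ Set (G ⊕ K)) (σ : FP K) (i : I G K) (h : ∀ k, i ≠ Sum.inr (j k)) :
    ((cp (G := G) j σ : FP (I G K)) : Equiv.Perm (I G K)) i = i := by
  refine Equiv.Perm.viaEmbedding_apply_of_notMem _ (j.trans ⟨Sum.inr, Sum.inr_injective⟩) i ?_
  rintro ⟨k, hk⟩
  exact h k hk.symm

/-- the copy commutes with the permutations which fix the points `j k` -/
lemma cp_comm (j : K ↪ Set (G ⊕ K)) (σ : FP K) (x : Equiv.Perm (I G K))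
    (hx : ∀ k, x (Sum.inr (j k)) = Sum.inr (j k)) :
    x * ((cp (G := G) j σ : FP (I G K)) : Equiv.Perm (I G K)) = (cp (G := G) j σ : FP (I G K)) * x := by
  ext i
  rw [Equiv.Perm.mul_apply, Equiv.Perm.mul_apply]
  by_cases h : ∃ k, i = Sum.inr (j k)
  · obtain ⟨k, rfl⟩ := h
    rw [cp_apply, hx, hx, cp_apply]
  · push Not at h
    rw [cp_apply_ne j σ i h, cp_apply_ne j σ (x i)]
    intro k hk
    refine h k (x.injective ?_)
    rw [hk, hx]

lemma th_cp (j : K ↪ Set (G ⊕ K)) (g : G) (σ : FP K) : th G K g (cp j σ) = cp j σ := by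
  apply Subtype.ext
  rw [th_val, cp_comm j σ (act G K g) (fun k => by simp [act]), mul_assoc, mul_inv_cancel,
    mul_one]

end Pool.Agent.H10.EC
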