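import Pool.Agent.H10.EC.Main

/-!
# Common fixed points of many cocycle perturbations
-/

set_option autoImplicit false
set_option linter.unusedSectionVars false
set_option linter.deprecated false

namespace Pool.Agent.H10.EC

open Pool.Agent.H95R3.NS Pool.Agent.H95R3.NS.Pub
open scoped ENNReal InnerProductSpace

/-- The unit vector `Ω` is a trace vector of `M`: `x ↦ ⟨Ω, x Ω⟩` is a faithful tracial state. -/
def TraceVector {H : Type} [NormedAddCommGroup H] [InnerProductSpace ℂ H] [CompleteSpace H]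
    (M : Set (Pub.Op H)) (Ω : H) : Prop :=
  ip Ω Ω = 1 ∧ (∀ x ∈ M, ∀ y ∈ M, ip Ω (ap (x * y) Ω) = ip Ω (ap (y * x) Ω)) ∧
    ∀ x ∈ M, ip Ω (ap (star x * x) Ω) = 0 → x = 0

/-- The von Neumann algebra generated by a selfadjoint set of operators: its double commutant. -/
def vN {H : Type} [NormedAddCommGroup H] [InnerProductSpace ℂ H] (S : Set (Pub.Op H)) :
    Set (Pub.Op H) := commutant (commutant S)

/-- The operators `w σ`, for the finitely supported permutations `σ` of `K`, are a copy of this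
group in `M`: `w` is a representation by unitary elements of `M`, of trace zero for `σ ≠ 1`, and
they generate a II₁ factor. -/
structure Copy {H K : Type} [NormedAddCommGroup H] [InnerProductSpace ℂ H] [CompleteSpace H]
    (M : Set (Pub.Op H)) (Ω : H) (w : FP K → Pub.Op H) : Prop where
  one : w 1 = 1
  mul : ∀ σ τ, w (σ * τ) = w σ * w τ
  star : ∀ σ, star (w σ) = w σ⁻¹
  trace : ∀ σ, σ ≠ 1 → ip Ω (ap (w σ) Ω) = 0
  sub : vN (Set.range w) ⊆ M
  factor : Pub.IsIIOneFactor (vN (Set.range w))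

section

variable {Γ Δ : Type} [Group Γ] [Group Δ] (φ : Δ →* Γ)

lemma nrm_de (x : HG Γ →L[ℂ] HG Γ) :
    nrm (fun i : ℕ => if i = 0 then (de 1 : HG Γ) else 0) x = x (de 1) 1 := by
  unfold nrm
  rw [tsum_eq_single 0]
  · simp only [if_true]
    exact inner_de_left 1 _
  · intro i hi
    simp only [hi, if_false]
    change (inner ℂ (0 : HG Γ) _ : ℂ) = 0
    rw [inner_zero_left]

lemma ip_de (x : HG Γ →L[ℂ] HG Γ) : ip (de 1 : HG Γ) (ap (H := HG Γ) x (de 1)) = x (de 1) 1 :=
  inner_de_left 1 _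

lemma faithful {x : HG Γ →L[ℂ] HG Γ} (hx : x ∈ GV Γ) (h : (star x * x) (de 1) 1 = 0) : x = 0 := by
  rw [tr_star] at h
  have h2 : x (de 1) = 0 := by
    have : ‖x (de 1)‖ ^ 2 = 0 := Complex.ofReal_eq_zero.1 h
    simpa using this
  refine GV_ext hx (zero_mem _) ?_
  rw [h2]
  rfl

lemma traceV : TraceVector (H := HG Γ) (toSet (GV Γ)) (de 1) := by
  refine ⟨?_, fun x hx y hy => ?_, fun x hx h => ?_⟩
  · change (inner ℂ (de 1 : HG Γ) (de 1) : ℂ) = 1
    rw [inner_de_left, de_self]
  · exact (ip_de _).trans ((tr_comm hx hy).trans (ip_de _).symm)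
  · exact faithful hx ((ip_de _).symm.trans h)

/-- the generated von Neumann algebra is a II₁ factor -/
lemma NN_II [Infinite Δ] (hφ : Function.Injective φ)
    (h : ∀ k : Γ, k ≠ 1 → {x | ∃ g : Γ, (g ∈ Set.range φ ∨ ∀ d, g * φ d = φ d * g) ∧
      x = g * k * g⁻¹}.Infinite) :
    Pub.IsIIOneFactor (H := HG Γ) (NN φ) where
  star_mem := NN_star φ
  bicommutant := NN_NN φ
  factor x hx hc := NN_factor φ h hx hc
  infinite := by
    let e : ℕ ↪ Δ := Infinite.natEmbedding Δ
    refine ⟨fun i => lam Γ (φ (e i)), fun i => gen_NN φ _, ?_⟩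
    intro n c hc i hi
    have h1 : LinearIndependent ℂ (fun i : ℕ => (de (φ (e i)) : HG Γ)) :=
      (de_linInd (Γ := Γ)).comp (fun i : ℕ => φ (e i)) (hφ.comp e.injective)
    refine (linearIndependent_iff'.1 h1) (Finset.range n) c ?_ i (Finset.mem_range.2 hi)
    have h2 : ∀ s : Finset ℕ, (show HG Γ →L[ℂ] HG Γ from
        (∑ i ∈ s, c i • (show Pub.Op (HG Γ) from lam Γ (φ (e i))))) (de 1) =
        ∑ i ∈ s, c i • (de (φ (e i)) : HG Γ) := by
      intro s
      induction s using Finset.induction_on with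
      | empty => rfl
      | insert a s ha ih =>
        rw [Finset.sum_insert ha, Finset.sum_insert ha, ← ih]
        have h3 : lam Γ (φ (e a)) (de 1) = (de (φ (e a)) : HG Γ) := by rw [lam_de, mul_one]
        rw [← h3]
        rfl
    rw [← h2]
    have h4 := congrArg (fun T : HG Γ →L[ℂ] HG Γ => T (de 1)) hc
    exact h4
  trace := by
    refine ⟨fun i => if i = 0 then de 1 else 0, ?_, ?_, ?_, ?_⟩
    · refine summable_of_ne_finset_zero (s := {0}) ?_
      intro b hb
      simp only [Finset.mem_singleton] at hb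
      simp [hb]
    · refine (nrm_de _).trans ?_
      change (de 1 : HG Γ) 1 = 1
      exact de_self 1
    · intro x hx y hy
      exact (nrm_de _).trans ((tr_comm (NN_GV φ hx) (NN_GV φ hy)).trans (nrm_de _).symm)
    · intro x hx h
      exact faithful (NN_GV φ hx) ((nrm_de _).symm.trans h)

/-- the copy of `Δ` -/
lemma copyD {K : Type} [Infinite K] (φ : FP K →* Γ) (hφ : Function.Injective φ)
    (h : ∀ k : Γ, k ≠ 1 → {x | ∃ g : Γ, (g ∈ Set.range φ ∨ ∀ d, g * φ d = φ d * g) ∧
      x = g * k * g⁻¹}.Infinite) :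
    Copy (H := HG Γ) (toSet (GV Γ)) (de 1) (fun σ : FP K => lam Γ (φ σ)) := by
  have hinf : Infinite (FP K) := by
    classical
    obtain ⟨a⟩ : Nonempty K := inferInstance
    have : Function.Injective (fun b : K => (⟨Equiv.swap a b, swap_mem _ _⟩ : FP K)) := by
      intro b c hbc
      have := congrArg (fun z : FP K => (z : Equiv.Perm K) a) hbc
      simpa using this
    exact Infinite.of_injective _ this
  refine ⟨?_, fun σ τ => ?_, fun σ => ?_, fun σ hσ => ?_, fun x hx => NN_GV φ hx,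
    NN_II φ hφ h⟩
  · change lam Γ (φ 1) = 1
    rw [map_one, lam_one]
  · change lam Γ (φ (σ * τ)) = lam Γ (φ σ) * lam Γ (φ τ)
    rw [map_mul, lam_mul]
  · change star (lam Γ (φ σ)) = lam Γ (φ σ⁻¹)
    rw [map_inv, star_lam]
  · refine (ip_de _).trans ?_
    rw [lam_de, mul_one]
    refine de_ne _ _ fun h => hσ (hφ ?_)
    rw [map_one, ← h]

end

/-- linearly independent operators are not all scalars -/
lemma no_scalar {H : Type} [NormedAddCommGroup H] [InnerProductSpace ℂ H] (x : ℕ → Pub.Op H)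
    (hl : ∀ (n : ℕ) (c : ℕ → ℂ), (∑ i ∈ Finset.range n, c i • x i = 0) → ∀ i < n, c i = 0)
    (hs : ∀ i, IsScalar (x i)) : False := by
  obtain ⟨a, ha⟩ := hs 0
  obtain ⟨b, hb⟩ := hs 1
  let X : ℕ → (H →L[ℂ] H) := x
  have hl' : ∀ (n : ℕ) (c : ℕ → ℂ), (∑ i ∈ Finset.range n, c i • X i = 0) → ∀ i < n, c i = 0 := hl
  have ha' : X 0 = a • (1 : H →L[ℂ] H) := ha
  have hb' : X 1 = b • (1 : H →L[ℂ] H) := hb
  by_cases h0 : a = 0
  · have := hl' 1 (fun _ => 1) (by simp [ha', h0]) 0 (by omega)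
    exact one_ne_zero this
  · have := hl' 2 (fun i => if i = 0 then -b else a) (by
      rw [Finset.sum_range_succ, Finset.sum_range_one]
      simp only [if_true, one_ne_zero, if_false]
      rw [ha', hb', smul_smul, smul_smul, ← add_smul, neg_mul, mul_comm b a, neg_add_cancel,
        zero_smul]) 1 (by omega)
    simp only [one_ne_zero, if_false] at this
    exact h0 this

section

variable {G : Type} (K : Type) [Group G]

lemma core [Infinite G] [Infinite K] (y : G × K → HG (FP (I G K)) →L[ℂ] HG (FP (I G K)))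
    (hy : ∀ i, y i ∈ GV (FP (I G K))) :
    ∃ φ : FP K →* FP (I G K), Function.Injective φ ∧
      (∀ k : FP (I G K), k ≠ 1 → {x | ∃ g : FP (I G K), (g ∈ Set.range φ ∨
        ∀ d, g * φ d = φ d * g) ∧ x = g * k * g⁻¹}.Infinite) ∧
      (∀ g, uu (th G K g) ∈ Set.centralizer (gen φ)) ∧
      ∀ i, y i ∈ Set.centralizer (gen φ) := by
  have hG : Cardinal.aleph0 ≤ Cardinal.mk (G ⊕ K) := Cardinal.aleph0_le_mk _
  obtain ⟨j, hj⟩ := exists_emb (G := G) (K := K)
    (⋃ i : G × K, {k | y i (de 1) k ≠ 0}) (by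
      refine (Cardinal.mk_iUnion_le _).trans ?_
      refine (mul_le_mul' le_rfl (ciSup_le' (fun i => ?_))).trans (?_ :
        Cardinal.mk (G × K) * Cardinal.aleph0 ≤ _)
      · exact Cardinal.le_aleph0_iff_set_countable.2 (countable_supp _)
      · have h1 : Cardinal.mk (G × K) ≤ Cardinal.mk (G ⊕ K) := by
          have h2 : Cardinal.mk (G × K) = Cardinal.mk G * Cardinal.mk K := by simp
          rw [h2]
          refine (mul_le_mul' (Cardinal.mk_le_of_injective (Sum.inl_injective :
            Function.Injective (Sum.inl : G → G ⊕ K))) (Cardinal.mk_le_of_injective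
            (Sum.inr_injective : Function.Injective (Sum.inr : K → G ⊕ K)))).trans
            (Cardinal.mul_eq_self hG).le
        exact (mul_le_mul' h1 le_rfl).trans (Cardinal.mul_aleph0_eq hG).le)
  refine ⟨cp j, cp_inj j, fun k hk => conj_inf j k hk, ?_, ?_⟩
  · rintro g _ ⟨d, rfl⟩
    have h1 := uu_lam (th G K g) (cp (G := G) j d)
    rw [th_cp] at h1
    have h2 : uu (th G K g)⁻¹ * uu (th G K g) = 1 := by rw [uu_mul, inv_mul_cancel, uu_one]
    change lam _ (cp j d) * uu (th G K g) = uu (th G K g) * lam _ (cp j d)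
    calc lam _ (cp j d) * uu (th G K g)
        = (uu (th G K g) * lam _ (cp j d) * uu (th G K g)⁻¹) * uu (th G K g) := by rw [h1]
      _ = uu (th G K g) * lam _ (cp j d) * (uu (th G K g)⁻¹ * uu (th G K g)) := by
          noncomm_ring
      _ = _ := by rw [h2, mul_one]
  · rintro i _ ⟨d, rfl⟩
    change lam _ (cp j d) * y i = y i * lam _ (cp j d)
    refine (comm_lam (hy i) _ fun k hk => ?_).symm
    apply Subtype.ext
    exact cp_comm j d _ fun a => hj a k (Set.mem_iUnion.2 ⟨i, hk⟩)

theorem main (G K : Type) [Group G] [Infinite G] [Infinite K] :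
    ∃ (H : Type) (_ : NormedAddCommGroup H) (_ : InnerProductSpace ℂ H) (_ : CompleteSpace H)
      (M : Set (Pub.Op H)) (α : G → Pub.Op H → Pub.Op H) (Ω : H),
      Pub.IsIIOneFactor M ∧ Pub.IsAction M α ∧ Pub.StrictlyOuter M α ∧ TraceVector M Ω ∧
      (∀ y : G × K → Pub.Op H, (∀ i, y i ∈ M) → ∃ w : FP K → Pub.Op H, Copy M Ω w ∧
        ∀ x ∈ vN (Set.range w), (∀ g, α g x = x) ∧ ∀ i, x * y i = y i * x) := by
  refine ⟨HG (FP (I G K)), inferInstance, inferInstance, inferInstance,
    toSet (GV (FP (I G K))), ext0 _ (al (th G K)), de 1, ?_, ?_, ?_, traceV, ?_⟩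
  · have : Infinite (FP (I G K)) := by
      obtain ⟨m, n, hmn⟩ := exists_pair_ne G
      exact Set.infinite_univ_iff.1 ((twisted_infinite m n hmn 1).mono (Set.subset_univ _))
    exact II _ (GV_II (fun h hh => conj_infinite h hh))
  · exact action _ _ (al_action _)
  · exact outer _ _ (al_outer _ (fun h hh => conj_infinite h hh)
      (fun m n hmn h => twisted_infinite m n hmn h))
  · intro y hy
    obtain ⟨φ, hφ, h1, h2, h3⟩ := core K (G := G) y hy
    refine ⟨fun σ => lam _ (φ σ), copyD φ hφ h1, fun x hx => ⟨fun g => ?_, fun i => ?_⟩⟩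
    · have hx' : x ∈ toSet (GV (FP (I G K))) := NN_GV φ hx
      rw [ext0_pos _ _ g x hx']
      have h4 : uu (th G K g) * (show HG (FP (I G K)) →L[ℂ] HG (FP (I G K)) from x) =
          (show HG (FP (I G K)) →L[ℂ] HG (FP (I G K)) from x) * uu (th G K g) := hx _ (h2 g)
      have h5 : uu (th G K g) * uu (th G K g)⁻¹ = 1 := by rw [uu_mul, mul_inv_cancel, uu_one]
      change uu (th G K g) * (show HG (FP (I G K)) →L[ℂ] HG (FP (I G K)) from x) *
        uu (th G K g)⁻¹ = x
      rw [h4, mul_assoc, h5, mul_one]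
    · exact (hx _ (h3 i)).symm

end

end Pool.Agent.H10.EC
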