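import Pool.Agent.H10.EC.Fin

/-!
# The von Neumann algebra generated by a subgroup, and cocycle perturbations
-/

set_option autoImplicit false
set_option linter.unusedSectionVars false
set_option linter.deprecated false

namespace Pool.Agent.H10.EC

open Pool.Agent.H95R3.NS
open scoped ENNReal InnerProductSpace

section

variable {Γ Δ : Type} [Group Γ] [Group Δ] (φ : Δ →* Γ)

/-- the generators -/
def gen : Set (HG Γ →L[ℂ] HG Γ) := Set.range fun d => lam Γ (φ d)

/-- the generated von Neumann algebra -/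
def NN : Set (HG Γ →L[ℂ] HG Γ) := Set.centralizer (Set.centralizer (gen φ))

lemma lam_mul (g h : Γ) : lam Γ (g * h) = lam Γ g * lam Γ h := by
  refine ext_de fun a => ?_
  rw [ContinuousLinearMap.mul_apply, lam_de, lam_de, lam_de, mul_assoc]

lemma lam_one : lam Γ (1 : Γ) = 1 := by
  refine ext_de fun a => ?_
  rw [lam_de, one_mul]; rfl

lemma gen_star (x : HG Γ →L[ℂ] HG Γ) (h : x ∈ gen φ) : star x ∈ gen φ := by
  obtain ⟨d, rfl⟩ := h
  refine ⟨d⁻¹, ?_⟩
  change lam Γ (φ d⁻¹) = star (lam Γ (φ d))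
  rw [map_inv, star_lam]

lemma NN_star (x : HG Γ →L[ℂ] HG Γ) (h : x ∈ NN φ) : star x ∈ NN φ :=
  Set.star_mem_centralizer' (fun _ ha => Set.star_mem_centralizer' (gen_star φ) ha) h

lemma gen_NN (d : Δ) : lam Γ (φ d) ∈ NN φ := fun m hm => (hm _ ⟨d, rfl⟩).symm

lemma NN_GV {x : HG Γ →L[ℂ] HG Γ} (h : x ∈ NN φ) : x ∈ GV Γ := by
  rw [mem_GV]
  intro g
  refine h _ ?_
  rintro _ ⟨d, rfl⟩
  exact ((mem_GV _).1 (lam_mem (φ d)) g).symm

lemma NN_NN : Set.centralizer (Set.centralizer (NN φ)) = NN φ := by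
  unfold NN
  rw [Set.centralizer_centralizer_centralizer]

/-- conjugation invariance of the coefficients -/
lemma coef {x : HG Γ →L[ℂ] HG Γ} (hx : x ∈ GV Γ) (g k : Γ) (hc : x * lam Γ g = lam Γ g * x) :
    x (de 1) (g * k * g⁻¹) = x (de 1) k := by
  have h2 := congrArg (fun T : HG Γ →L[ℂ] HG Γ => T (de 1) (g * k)) hc
  simp only [ContinuousLinearMap.mul_apply] at h2
  rw [lam_de, mul_one, GV_de hx, lam_apply, inv_mul_cancel_left] at h2
  exact h2

lemma NN_factor
    (h : ∀ k : Γ, k ≠ 1 → {x | ∃ g : Γ, (g ∈ Set.range φ ∨ ∀ d, g * φ d = φ d * g) ∧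
      x = g * k * g⁻¹}.Infinite)
    {x : HG Γ →L[ℂ] HG Γ} (hx : x ∈ NN φ) (hc : x ∈ Set.centralizer (NN φ)) :
    ∃ c : ℂ, x = c • (1 : HG Γ →L[ℂ] HG Γ) := by
  have hG := NN_GV φ hx
  refine ⟨x (de 1) 1, ?_⟩
  have h1' : (x (de 1) 1) • (1 : HG Γ →L[ℂ] HG Γ) ∈ GV Γ := by
    rw [mem_GV]
    intro g
    rw [mul_smul_comm, smul_mul_assoc, mul_one, one_mul]
  refine GV_ext hG h1' ?_
  ext k
  by_cases hk : k = 1
  · subst hk
    change _ = (x (de 1) 1) * (de 1 : HG Γ) 1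
    rw [de_self, mul_one]
  · change _ = (x (de 1) 1) * (de 1 : HG Γ) k
    rw [de_ne 1 k hk, mul_zero]
    refine factor_lemma _ _ (h k hk) k ?_
    rintro _ ⟨g, hg | hg, rfl⟩
    · obtain ⟨d, rfl⟩ := hg
      exact coef hG _ _ (hc _ (gen_NN φ d)).symm
    · refine coef hG _ _ (hx _ ?_).symm
      rintro _ ⟨d, rfl⟩
      change lam Γ (φ d) * lam Γ g = lam Γ g * lam Γ (φ d)
      rw [← lam_mul, ← lam_mul, hg]

end

section

variable {G K : Type} [Group G]

/-- infinitely many conjugates under the copy of the finitary group of `K` and its centralizer -/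
lemma conj_inf [Infinite G] [Infinite K] (j : K ↪ Set (G ⊕ K)) (k : FP (I G K)) (hk : k ≠ 1) :
    {x | ∃ g : FP (I G K), (g ∈ Set.range (cp (G := G) j) ∨
      ∀ d, g * cp j d = cp j d * g) ∧ x = g * k * g⁻¹}.Infinite := by
  classical
  have hex : ∃ i, (k : Equiv.Perm (I G K)) i ≠ i := by
    by_contra hcon
    push Not at hcon
    apply hk
    ext i
    simpa using hcon i
  have hfin : {i | (k : Equiv.Perm (I G K)) i ≠ i}.Finite := k.2
  by_cases ho : ∃ i, (∀ a, i ≠ Sum.inr (j a)) ∧ (k : Equiv.Perm (I G K)) i ≠ i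
  · obtain ⟨i, hij, hi⟩ := ho
    apply infinite_of_moved
    have h1 : (Set.range (Sum.inl : G → I G K) \ {i | (k : Equiv.Perm (I G K)) i ≠ i}).Infinite :=
      (Set.infinite_range_of_injective Sum.inl_injective).diff hfin
    refine h1.mono ?_
    rintro _ ⟨⟨a, rfl⟩, ha⟩
    have ha' : (k : Equiv.Perm (I G K)) (Sum.inl a) = Sum.inl a := by simpa using ha
    refine ⟨⟨Equiv.swap i (Sum.inl a), swap_mem _ _⟩ * k *
      ⟨Equiv.swap i (Sum.inl a), swap_mem _ _⟩⁻¹, ⟨_, Or.inr fun d => ?_, rfl⟩, ?_⟩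
    · apply Subtype.ext
      refine cp_comm j d (Equiv.swap i (Sum.inl a)) fun b => ?_
      exact Equiv.swap_apply_of_ne_of_ne (hij b).symm (by simp)
    · simp only [Subgroup.coe_mul, Subgroup.coe_inv, Equiv.Perm.mul_apply, Equiv.swap_inv,
        Equiv.swap_apply_right]
      intro hcon
      have h2 := congrArg (Equiv.swap i (Sum.inl a)) hcon
      rw [Equiv.swap_apply_self, Equiv.swap_apply_right] at h2
      exact hi h2
  · push Not at ho
    obtain ⟨i, hi⟩ := hex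
    obtain ⟨a, rfl⟩ : ∃ a, i = Sum.inr (j a) := by
      by_contra h
      push Not at h
      exact hi (ho i h)
    apply infinite_of_moved
    have h1 : (Set.range (fun b : K => (Sum.inr (j b) : I G K)) \
        {i | (k : Equiv.Perm (I G K)) i ≠ i}).Infinite :=
      (Set.infinite_range_of_injective (fun b c h => j.injective (Sum.inr_injective h))).diff hfin
    refine h1.mono ?_
    rintro _ ⟨⟨b, rfl⟩, hb⟩
    have hb' : (k : Equiv.Perm (I G K)) (Sum.inr (j b)) = Sum.inr (j b) := by simpa using hb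
    have e1 : ∀ c, ((cp (G := G) j ⟨Equiv.swap a b, swap_mem _ _⟩ : FP (I G K)) :
        Equiv.Perm (I G K)) (Sum.inr (j c)) = Sum.inr (j (Equiv.swap a b c)) :=
      fun c => cp_apply j _ c
    refine ⟨cp j ⟨Equiv.swap a b, swap_mem _ _⟩ * k * (cp j ⟨Equiv.swap a b, swap_mem _ _⟩)⁻¹,
      ⟨_, Or.inl ⟨_, rfl⟩, rfl⟩, ?_⟩
    simp only [Subgroup.coe_mul, Subgroup.coe_inv, Equiv.Perm.mul_apply]
    have e2 : ((cp (G := G) j ⟨Equiv.swap a b, swap_mem _ _⟩ : FP (I G K)) :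
        Equiv.Perm (I G K))⁻¹ (Sum.inr (j b)) = Sum.inr (j a) := by
      rw [Equiv.Perm.inv_eq_iff_eq, e1, Equiv.swap_apply_left]
    rw [e2]
    intro hcon
    apply hi
    apply ((cp (G := G) j ⟨Equiv.swap a b, swap_mem _ _⟩ : FP (I G K)) :
        Equiv.Perm (I G K)).injective
    rw [hcon, e1, Equiv.swap_apply_left]

end

end Pool.Agent.H10.EC
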